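import Mathlib
import Pool.Agent.Hhelper85.TateDefs

/-!
# The family `y² = x³ + t`
-/

namespace Pool.Agent.TateBSD

open Polynomial

/-- The ring `R₀[t, 1/t]` with the curve `y² = x³ + t`. -/
noncomputable def sexticBase (R₀ : Type) [CommRing R₀] : CurveRing where
  R := Localization.Away (X : R₀[X])
  a := 0
  b := algebraMap R₀[X] (Localization.Away (X : R₀[X])) X

/-- The coordinate ring of the `r`-fold fibre power of the affine part of `y² = x³ + t` over
`R₀[t, 1/t]`. -/
noncomputable def sextic (R₀ : Type) [CommRing R₀] (r : ℕ) : CurveRing :=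
  CurveRing.adjoinPoint^[r] (sexticBase R₀)

end Pool.Agent.TateBSD
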