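import Mathlib
import Pool.Agent.Hhelper85.Tower
import Pool.Agent.Hhelper78.CM.Defs

/-!
# Ranks for the tower over `y² = x³ + t`
-/

set_option linter.unusedSectionVars false

namespace Pool.Agent.Hhelper78.CM

open Polynomial WeierstrassCurve WeierstrassCurve.Affine Pool.Agent.TateBSD Pool.Agent.Hhelper85

section general

lemma dsc_zero_zero {R : Type*} [CommRing R] (t : R) : dsc 0 0 t = -432 * t ^ 2 := by
  rw [dsc]; ring

lemma n432_ne {k : Type*} [Field k] (h2 : (2 : k) ≠ 0) (h3 : (3 : k) ≠ 0) : (-432 : k) ≠ 0 := by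
  have : (-432 : k) = -(2 ^ 4 * 3 ^ 3) := by norm_num
  rw [this]; exact neg_ne_zero.2 (mul_ne_zero (pow_ne_zero _ h2) (pow_ne_zero _ h3))

/-- Over `k(t)`, `-3` not a square in `k`. -/
lemma good_RF_cm {k : Type*} [Field k] (h2 : (2 : k) ≠ 0) (h3 : (3 : k) ≠ 0)
    (hns : ∀ z : k, z ^ 2 ≠ -3) :
    Good (RF k) 0 0 (algebraMap k[X] (RF k) X) where
  h2 := two_ne_RF h2
  hd := by
    have h : dsc (0 : RF k) 0 (algebraMap k[X] (RF k) X)
        = algebraMap k[X] (RF k) (C (-432) * X ^ 2) := by
      simp only [dsc, map_mul, map_pow, map_neg, map_ofNat]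
      ring
    rw [h, Ne, IsFractionRing.to_map_eq_zero_iff]
    exact mul_ne_zero (C_ne_zero.2 (n432_ne h2 h3)) (pow_ne_zero _ X_ne_zero)
  hno := by
    intro x hx
    have hint : _root_.IsIntegral k[X] x := by
      refine ⟨fp 0 0 X, fpR_monic _ _ _, ?_⟩
      rw [fp_eval₂, map_zero]
      exact hx
    obtain ⟨p, hp⟩ := IsIntegrallyClosed.isIntegral_iff.1 hint
    have h0 : p ^ 3 + X = 0 := by
      apply IsFractionRing.injective k[X] (RF k)
      simp only [map_add, map_pow, map_zero, hp]
      rw [zero_mul, add_zero, zero_mul, add_zero] at hx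
      exact hx
    have h1 : p ^ 3 = -X := by linear_combination h0
    have h3 := congrArg natDegree h1
    rw [natDegree_pow, natDegree_neg, natDegree_X] at h3
    omega
  hsq := by
    intro z hz
    have h : dsc (0 : RF k) 0 (algebraMap k[X] (RF k) X)
        = algebraMap k[X] (RF k) (C (-432) * X ^ 2) := by
      simp only [dsc, map_mul, map_pow, map_neg, map_ofNat]
      ring
    rw [h] at hz
    obtain ⟨s, -, hs⟩ := isPoly_of_sq hz
    have hsd : s.natDegree ≤ 1 := by
      have h5 : (C (-432) * X ^ 2 : k[X]).natDegree ≤ 2 := natDegree_C_mul_X_pow_le _ _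
      rw [← hs, natDegree_pow] at h5
      omega
    obtain ⟨u, v, rfl⟩ := exists_eq_X_add_C_of_natDegree_le_one hsd
    have e : (C u * X + C v) ^ 2 = C (v ^ 2) + C (2 * u * v) * X + C (u ^ 2) * X ^ 2 := by
      simp only [C_mul, C_pow, map_ofNat]; ring
    rw [e] at hs
    have c2 := congrArg (fun p => p.coeff 2) hs
    simp only [coeff_add, coeff_C_mul, coeff_C, coeff_X, coeff_X_pow] at c2
    norm_num at c2
    have h12 : (12 : k) ≠ 0 := by
      have : (12 : k) = 2 ^ 2 * 3 := by norm_num
      rw [this]; exact mul_ne_zero (pow_ne_zero _ h2) h3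
    apply hns (u / 12)
    rw [div_pow, c2]
    have h144 : ((12 : k) ^ 2) ≠ 0 := pow_ne_zero _ h12
    rw [div_eq_iff h144]
    norm_num

end general

section base

variable (R₀ : Type*) [CommRing R₀]

/-- The base ring `R₀[t, 1/t]`. -/
abbrev SR : Type _ := Localization.Away (X : R₀[X])

variable {R₀}

/-- The element `t`. -/
noncomputable def tS : SR R₀ := algebraMap R₀[X] (SR R₀) X

lemma isUnit_tS : IsUnit (tS : SR R₀) := IsLocalization.Away.algebraMap_isUnit _

section lift

variable {T : Type*} [CommRing T] (f : R₀ →+* T) (y : T)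

/-- The map out of `R₀[t, 1/t]`. -/
noncomputable def liftS (h : IsUnit y) : SR R₀ →+* T :=
  IsLocalization.Away.lift (X : R₀[X]) (g := eval₂RingHom f y) (by
    rw [coe_eval₂RingHom, eval₂_X]; exact h)

lemma liftS_algebraMap (h : IsUnit y) (p : R₀[X]) :
    liftS f y h (algebraMap _ (SR R₀) p) = eval₂RingHom f y p := by
  rw [liftS, IsLocalization.Away.lift_eq]

lemma liftS_t (h : IsUnit y) : liftS f y h tS = y := by
  rw [tS, liftS_algebraMap, coe_eval₂RingHom, eval₂_X]

lemma liftS_injective (h : IsUnit y) (hi : Function.Injective (eval₂RingHom f y)) :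
    Function.Injective (liftS f y h) := by
  rw [injective_iff_map_eq_zero]
  intro z hz
  obtain ⟨⟨p, s⟩, hps⟩ := IsLocalization.surj (Submonoid.powers (X : R₀[X])) z
  simp only at hps
  have h1 := congrArg (liftS f y h) hps
  rw [map_mul, hz, zero_mul, liftS_algebraMap] at h1
  have hp : p = 0 := hi (by rw [← h1, map_zero])
  rw [hp, map_zero] at hps
  exact (IsLocalization.map_units (SR R₀) s).mul_left_eq_zero.1 hps

end lift

variable [IsDomain R₀]

instance : IsDomain (SR R₀) :=
  IsLocalization.isDomain_localization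
    (powers_le_nonZeroDivisors_of_noZeroDivisors (X_ne_zero (R := R₀)))

section good

variable (h2 : (2 : R₀) ≠ 0) (h3 : (3 : R₀) ≠ 0)
  (hns : ∀ z : FractionRing R₀, z ^ 2 ≠ -3)
include h2 h3

lemma frac_two : (2 : FractionRing R₀) ≠ 0 := by
  have : (2 : FractionRing R₀) = algebraMap R₀ _ 2 := (map_ofNat _ 2).symm
  rw [this, Ne, IsFractionRing.to_map_eq_zero_iff]; exact h2

lemma frac_three : (3 : FractionRing R₀) ≠ 0 := by
  have : (3 : FractionRing R₀) = algebraMap R₀ _ 3 := (map_ofNat _ 3).symm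
  rw [this, Ne, IsFractionRing.to_map_eq_zero_iff]; exact h3

include hns

theorem sbase_good (F : Type*) [Field F] [Algebra (SR R₀) F] [IsFractionRing (SR R₀) F] :
    Good F 0 0 (algebraMap (SR R₀) F tS) := by
  set k₀ := FractionRing R₀
  set y : RF k₀ := algebraMap k₀[X] (RF k₀) X with hy
  set f : R₀ →+* RF k₀ := ((algebraMap k₀[X] (RF k₀)).comp C).comp (algebraMap R₀ k₀) with hf
  have hev : eval₂RingHom f y
      = (algebraMap k₀[X] (RF k₀)).comp (mapRingHom (algebraMap R₀ k₀)) := by
    apply Polynomial.ringHom_ext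
    · intro r
      simp only [RingHom.coe_comp, Function.comp_apply, coe_mapRingHom, map_C, hf,
        coe_eval₂RingHom, eval₂_C]
    · simp only [RingHom.coe_comp, Function.comp_apply, coe_mapRingHom, map_X, hy,
        coe_eval₂RingHom, eval₂_X]
  have hinj : Function.Injective (eval₂RingHom f y) := by
    rw [hev]
    apply (IsFractionRing.injective k₀[X] (RF k₀)).comp
    apply Polynomial.map_injective
    exact IsFractionRing.injective R₀ k₀
  have hunit : IsUnit y := by
    apply IsUnit.mk0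
    rw [hy, Ne, IsFractionRing.to_map_eq_zero_iff]
    exact X_ne_zero
  have hUinj := liftS_injective f y hunit hinj
  let ρ : F →+* RF k₀ := IsFractionRing.lift (A := SR R₀) (K := F) hUinj
  have hρ : ∀ z, ρ (algebraMap (SR R₀) F z) = liftS f y hunit z := by
    intro z; exact IsFractionRing.lift_algebraMap _ _
  apply Good.descend ρ
  rw [map_zero, hρ, liftS_t]
  exact good_RF_cm (frac_two h2 h3) (frac_three h2 h3) hns

theorem sbase_points (F : Type*) [Field F] [Algebra (SR R₀) F] [IsFractionRing (SR R₀) F]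
    [DecidableEq F] (t : F) (ht : t = algebraMap (SR R₀) F tS)
    (P : (EC F 0 0 t).Point) : P = 0 := by
  classical
  have hG : Good F 0 0 t := by rw [ht]; exact sbase_good h2 h3 hns F
  set k₀ := FractionRing R₀
  set w : RF k₀ := algebraMap k₀[X] (RF k₀) X with hw
  set f : R₀ →+* RF k₀ := ((algebraMap k₀[X] (RF k₀)).comp C).comp (algebraMap R₀ k₀) with hf
  have hev : eval₂RingHom f (w ^ 3)
      = (algebraMap k₀[X] (RF k₀)).comp (((expand k₀ 3 : k₀[X] →ₐ[k₀] k₀[X]) :
        k₀[X] →+* k₀[X]).comp (mapRingHom (algebraMap R₀ k₀))) := by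
    apply Polynomial.ringHom_ext
    · intro r
      simp only [RingHom.coe_comp, Function.comp_apply, coe_mapRingHom, map_C, hf,
        coe_eval₂RingHom, eval₂_C, RingHom.coe_coe, expand_C]
    · simp only [RingHom.coe_comp, Function.comp_apply, coe_mapRingHom, map_X, hw,
        coe_eval₂RingHom, eval₂_X, RingHom.coe_coe, expand_X, map_pow]
  have hinj : Function.Injective (eval₂RingHom f (w ^ 3)) := by
    rw [hev]
    apply (IsFractionRing.injective k₀[X] (RF k₀)).comp
    have h1 : Function.Injective ((expand k₀ 3 : k₀[X] →ₐ[k₀] k₀[X]) : k₀[X] →+* k₀[X]) :=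
      expand_injective (by norm_num)
    apply h1.comp
    apply Polynomial.map_injective
    exact IsFractionRing.injective R₀ k₀
  have hw0 : w ≠ 0 := by
    rw [hw, Ne, IsFractionRing.to_map_eq_zero_iff]
    exact X_ne_zero
  have hunit : IsUnit (w ^ 3) := IsUnit.mk0 _ (pow_ne_zero _ hw0)
  have hUinj := liftS_injective f _ hunit hinj
  let θ : F →+* RF k₀ := IsFractionRing.lift (A := SR R₀) (K := F) hUinj
  have hθ : ∀ z, θ (algebraMap (SR R₀) F z) = liftS f _ hunit z := by
    intro z; exact IsFractionRing.lift_algebraMap _ _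
  have hθt : θ t = w ^ 3 := by rw [ht, hθ, liftS_t]
  have ha : w * cst (RF k₀) (0 : k₀) = 1 ^ 2 * θ 0 := by
    rw [cst, C_0, map_zero, map_zero]; ring
  have hb : w ^ 2 * cst (RF k₀) (0 : k₀) = 1 ^ 4 * θ 0 := by
    rw [cst, C_0, map_zero, map_zero]; ring
  have hc : w ^ 3 * cst (RF k₀) (1 : k₀) = 1 ^ 6 * θ t := by
    rw [cst, C_1, map_one, hθt]; ring
  cases P with
  | zero => rfl
  | some x y h =>
    exfalso
    have hns' : (Tw (RF k₀) 0 0 (1 : k₀) w).Nonsingular (1 ^ 2 * θ x) (1 ^ 3 * θ y) :=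
      scale_nonsingular θ 1 one_ne_zero ha hb hc h
    have hd1 : dsc (0 : k₀) 0 1 ≠ 0 := by
      rw [dsc_zero_zero, one_pow, mul_one]
      exact n432_ne (frac_two h2 h3) (frac_three h2 h3)
    have hdeg := deg_eq_zero_X (K := RF k₀) (frac_two h2 h3) hd1 (.some _ _ hns')
    obtain ⟨N, M, S, hNM, hM, hdeg', -, hS', hS⟩ := exists_rep (K := RF k₀) (X_ne_zero (R := k₀))
      hns'
    have hdeg'' : max N.natDegree M.natDegree = 0 := by rw [← hdeg']; exact hdeg
    have hN0 : N.natDegree = 0 := by omega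
    have hM0 : M.natDegree = 0 := by omega
    obtain ⟨n, rfl⟩ : ∃ n, N = C n := ⟨N.coeff 0, eq_C_of_natDegree_eq_zero hN0⟩
    obtain ⟨m, rfl⟩ : ∃ m, M = C m := ⟨M.coeff 0, eq_C_of_natDegree_eq_zero hM0⟩
    have hWc : Wf (0 : k₀) 0 1 (C n) (C m)
        = C (n ^ 3 + 0 * n ^ 2 * m + 0 * n * m ^ 2 + 1 * m ^ 3) := by
      simp only [Wf, C_add, C_mul, C_pow]
    have hW0 : Wf (0 : k₀) 0 1 (C n) (C m) = 0 := by
      by_contra hne
      rw [hWc] at hne hS
      have h1 := congrArg natDegree hS
      rw [natDegree_mul X_ne_zero (mul_ne_zero hM hne), natDegree_X, natDegree_mul hM hne,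
        natDegree_C, natDegree_C, natDegree_pow] at h1
      omega
    rw [hW0, mul_zero, mul_zero] at hS
    have hS0 : S = 0 := pow_eq_zero_iff (two_ne_zero) |>.1 hS.symm
    rw [hS0, map_zero, mul_zero, one_pow, one_mul] at hS'
    have hMne : (algebraMap k₀[X] (RF k₀) (C m)) ^ 2 ≠ 0 := by
      apply pow_ne_zero
      rw [Ne, IsFractionRing.to_map_eq_zero_iff]
      exact hM
    have hy : θ y = 0 := (mul_eq_zero.1 hS').resolve_right hMne
    have hy0 : y = 0 := θ.injective (by rw [hy, map_zero])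
    have heq := ((nonsingular_iff'' _ _ _ _ _).1 h).1
    rw [hy0] at heq
    exact hG.hno x (by linear_combination -heq)

end good

end base

section tower

variable (R₀ : Type) [CommRing R₀]

lemma sextic_zero : sextic R₀ 0 = sexticBase R₀ := rfl

lemma sextic_succ (r : ℕ) : sextic R₀ (r + 1) = (sextic R₀ r).adjoinPoint :=
  Function.iterate_succ_apply' _ _ _

variable [IsDomain R₀] (h2 : (2 : R₀) ≠ 0) (h3 : (3 : R₀) ≠ 0)
  (hns : ∀ z : FractionRing R₀, z ^ 2 ≠ -3)
include h2 h3 hns

lemma rankGood_sbase : RankGood (sexticBase R₀) 0 where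
  dom := inferInstanceAs (IsDomain (SR R₀))
  good := by
    intro F _ alg _
    let _ : Algebra (SR R₀) F := alg
    have : IsFractionRing (SR R₀) F := ‹IsFractionRing (sexticBase R₀).R F›
    have h := sbase_good h2 h3 hns F
    have e : algebraMap (sexticBase R₀).R F (sexticBase R₀).a = 0 := map_zero _
    rw [e]
    exact h
  rank := by
    intro F _ alg _ _
    let _ : Algebra (SR R₀) F := alg
    have : IsFractionRing (SR R₀) F := ‹IsFractionRing (sexticBase R₀).R F›
    have h := sbase_points h2 h3 hns F _ rfl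
    have e : algebraMap (sexticBase R₀).R F (sexticBase R₀).a = 0 := map_zero _
    rw [e]
    have : Subsingleton (EC F 0 0
        (algebraMap (sexticBase R₀).R F (sexticBase R₀).b)).Point :=
      ⟨fun P Q => (h P).trans (h Q).symm⟩
    rw [Nat.cast_zero]
    exact rank_subsingleton' ℤ _

theorem rankGood_sextic (r : ℕ) : RankGood (sextic R₀ r) r := by
  induction r with
  | zero => exact rankGood_sbase R₀ h2 h3 hns
  | succ r ih => rw [sextic_succ]; exact ih.adjoin

end tower

end Pool.Agent.Hhelper78.CM
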