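import Mathlib
import Pool.Agent.Hhelper85.Moments

/-!
# Moments of the traces of the curves `y² = x³ + t` over a finite field
-/

set_option linter.unusedSectionVars false

namespace Pool.Agent.Hhelper78.CM

open Pool.Agent.Hhelper85

section moments

variable {k : Type*} [Field k] [Fintype k] [DecidableEq k]

/-- The good parameters. -/
def Gz (k : Type*) [Field k] [Fintype k] [DecidableEq k] : Finset k :=
  Finset.univ.filter fun t => t ≠ 0

lemma mem_Gz {t : k} : t ∈ Gz k ↔ t ≠ 0 := by simp [Gz]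

lemma mem_Gd_of {t : k} (h3 : (3 : k) ≠ 0) (ht : t ∈ Gz k) : ((0 : k), t) ∈ Gd k := by
  rw [mem_Gz] at ht
  simp only [Gd, Finset.mem_filter, Finset.mem_univ, true_and]
  have h27 : (27 : k) ≠ 0 := by
    have : (27 : k) = 3 ^ 3 := by norm_num
    rw [this]; exact pow_ne_zero _ h3
  have : 4 * (0 : k) ^ 3 + 27 * t ^ 2 = 27 * t ^ 2 := by ring
  rw [this]
  exact mul_ne_zero h27 (pow_ne_zero _ ht)

/-- The moments. -/
def SSc (k : Type*) [Field k] [Fintype k] [DecidableEq k] (j r : ℕ) : ℤ :=
  ∑ t ∈ Gz k, TT 0 t ^ j * (Fintype.card k - TT 0 t) ^ r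

lemma SSc_succ (j r : ℕ) : SSc k j (r + 1) = Fintype.card k * SSc k j r - SSc k (j + 1) r := by
  unfold SSc
  rw [Finset.mul_sum, ← Finset.sum_sub_distrib]
  apply Finset.sum_congr rfl
  intro x _
  ring

lemma SSc_odd (h2 : (2 : k) ≠ 0) {j : ℕ} (hj : Odd j) : SSc k j 0 = 0 := by
  obtain ⟨ν, hν⟩ := quadraticChar_exists_neg_one (ringChar_ne h2)
  have hν0 : ν ≠ 0 := by
    rintro rfl
    rw [MulChar.map_zero] at hν
    norm_num at hν
  have hT : ∀ t : k, TT 0 (ν ^ 3 * t) = -TT 0 t := by
    intro t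
    have h := TT_twist hν0 0 t
    rw [mul_zero, hν, neg_one_mul] at h
    exact h
  have h : SSc k j 0 = -SSc k j 0 := by
    unfold SSc
    rw [← Finset.sum_neg_distrib]
    symm
    refine Finset.sum_nbij' (fun t => ν ^ 3 * t) (fun t => t / ν ^ 3) ?_ ?_ ?_ ?_ ?_
    · intro t ht
      rw [mem_Gz] at ht ⊢
      exact mul_ne_zero (pow_ne_zero _ hν0) ht
    · intro t ht
      rw [mem_Gz] at ht ⊢
      exact div_ne_zero ht (pow_ne_zero _ hν0)
    · intro t _
      field_simp
    · intro t _
      field_simp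
    · intro t _
      rw [hT, pow_zero, pow_zero, mul_one, mul_one, hj.neg_pow]
  omega

lemma sum_char_shift (h2 : (2 : k) ≠ 0) {c : k} (hc : c ≠ 0) :
    ∑ t : k, quadraticChar k t * quadraticChar k (t + c) = -1 := by
  have h0 : ∑ x : k, quadraticChar k x = 0 := quadraticChar_sum_zero (ringChar_ne h2)
  have h1 : ∑ t : k, quadraticChar k t * quadraticChar k (t + c)
      = ∑ t ∈ Gz k, quadraticChar k (1 + c / t) := by
    rw [Gz, Finset.sum_filter]
    apply Finset.sum_congr rfl
    intro t _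
    by_cases ht : t = 0
    · rw [ht, MulChar.map_zero, if_neg (by simp)]; ring
    · rw [if_pos ht, ← map_mul]
      have e : t * (t + c) = t ^ 2 * (1 + c / t) := by field_simp
      rw [e, map_mul, map_pow, quadraticChar_sq_one ht, one_mul]
  have h3 : ∑ t ∈ Gz k, quadraticChar k (1 + c / t)
      = ∑ s ∈ Finset.univ.filter (fun s : k => s ≠ 1), quadraticChar k s := by
    refine Finset.sum_nbij' (fun t => 1 + c / t) (fun s => c / (s - 1)) ?_ ?_ ?_ ?_ ?_
    · intro t ht
      rw [mem_Gz] at ht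
      simp only [Finset.mem_filter, Finset.mem_univ, true_and]
      intro h
      have : c / t = 0 := by linear_combination h
      exact (div_ne_zero hc ht) this
    · intro s hs
      simp only [Finset.mem_filter, Finset.mem_univ, true_and] at hs
      rw [mem_Gz]
      exact div_ne_zero hc (sub_ne_zero.2 hs)
    · intro t ht
      rw [mem_Gz] at ht
      have e : 1 + c / t - 1 = c / t := by ring
      rw [e]
      field_simp
    · intro s hs
      simp only [Finset.mem_filter, Finset.mem_univ, true_and] at hs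
      have hs' : s - 1 ≠ 0 := sub_ne_zero.2 hs
      field_simp
      ring
    · intro t _
      rfl
  have h4 := Finset.sum_filter_add_sum_filter_not (Finset.univ : Finset k)
    (fun s => s ≠ 1) (fun s => quadraticChar k s)
  have h5 : ∑ s ∈ Finset.univ.filter (fun s : k => ¬ s ≠ 1), quadraticChar k s = 1 := by
    have : Finset.univ.filter (fun s : k => ¬ s ≠ 1) = {1} := by
      ext s; simp
    rw [this, Finset.sum_singleton, map_one]
  rw [h1, h3]
  linarith

lemma sum_char_two (h2 : (2 : k) ≠ 0) (a b : k) :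
    ∑ t : k, quadraticChar k (t + a) * quadraticChar k (t + b)
      = if a = b then (Fintype.card k : ℤ) - 1 else -1 := by
  split_ifs with h
  · subst h
    rw [← sum_sq_char, ← sum_affine (f := fun y => quadraticChar k y ^ 2)
      (one_ne_zero (α := k)) (β := a)]
    apply Finset.sum_congr rfl
    intro t _
    rw [← sq, one_mul]
  · have hc : b - a ≠ 0 := sub_ne_zero.2 (Ne.symm h)
    rw [← sum_char_shift h2 hc, ← sum_affine
      (f := fun y => quadraticChar k y * quadraticChar k (y + (b - a)))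
      (one_ne_zero (α := k)) (β := a)]
    apply Finset.sum_congr rfl
    intro t _
    congr 2
    · ring
    · ring

/-- The number of cube roots of unity. -/
lemma card_mu3 (h2 : (2 : k) ≠ 0) (h3 : (3 : k) ≠ 0) :
    ((Finset.univ.filter fun w : k => w ^ 3 = 1).card : ℤ) = 2 + quadraticChar k (-3) := by
  have h1 := quadraticChar_card_sqrts (ringChar_ne h2) (-3 : k)
  have h4 : (Finset.univ.filter fun w : k => w ^ 3 = 1)
      = insert 1 (Finset.univ.filter fun w : k => w ^ 2 + w + 1 = 0) := by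
    ext w
    simp only [Finset.mem_filter, Finset.mem_univ, true_and, Finset.mem_insert]
    constructor
    · intro h
      have : (w - 1) * (w ^ 2 + w + 1) = 0 := by linear_combination h
      rcases mul_eq_zero.1 this with h | h
      · left; linear_combination h
      · right; exact h
    · rintro (rfl | h)
      · ring
      · linear_combination (w - 1) * h
  have h5 : (1 : k) ∉ (Finset.univ.filter fun w : k => w ^ 2 + w + 1 = 0) := by
    simp only [Finset.mem_filter, Finset.mem_univ, true_and]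
    intro h
    apply h3
    linear_combination h
  have h6 : (Finset.univ.filter fun w : k => w ^ 2 + w + 1 = 0).card
      = ({x : k | x ^ 2 = -3}.toFinset).card := by
    refine Finset.card_nbij' (fun w => 2 * w + 1) (fun z => (z - 1) / 2) ?_ ?_ ?_ ?_
    · intro w hw
      simp only [Finset.coe_filter, Finset.mem_univ, true_and, Set.mem_ofPred_eq] at hw
      simp only [Set.coe_toFinset, Set.mem_ofPred_eq]
      linear_combination 4 * hw
    · intro z hz
      simp only [Set.coe_toFinset, Set.mem_ofPred_eq] at hz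
      simp only [Finset.coe_filter, Finset.mem_univ, true_and, Set.mem_ofPred_eq]
      field_simp
      linear_combination hz
    · intro w _
      simp only
      field_simp
      ring
    · intro z _
      simp only
      field_simp
      ring
  rw [h4, Finset.card_insert_of_notMem h5, h6]
  push_cast
  rw [h1]
  ring

lemma card_cubes (h2 : (2 : k) ≠ 0) (h3 : (3 : k) ≠ 0) :
    ∑ u : k, ∑ v : k, (if u ^ 3 = v ^ 3 then (1 : ℤ) else 0)
      = 1 + (Fintype.card k - 1) * (2 + quadraticChar k (-3)) := by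
  have h1 : ∀ u : k, u ≠ 0 → ∑ v : k, (if u ^ 3 = v ^ 3 then (1 : ℤ) else 0)
      = 2 + quadraticChar k (-3) := by
    intro u hu
    rw [← card_mu3 h2 h3, Finset.card_filter]
    push_cast
    have hbij : Function.Bijective (fun w : k => u * w) := by
      refine ⟨fun x y h => mul_left_cancel₀ hu h, fun y => ⟨y / u, ?_⟩⟩
      field_simp
    rw [← hbij.sum_comp]
    apply Finset.sum_congr rfl
    intro w _
    have e : (u ^ 3 = (u * w) ^ 3) ↔ (w ^ 3 = 1) := by
      rw [mul_pow]
      constructor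
      · intro h
        exact mul_left_cancel₀ (pow_ne_zero 3 hu) (by rw [mul_one]; exact h.symm)
      · intro h
        rw [h, mul_one]
    simp only [e]
  have h4 : ∑ v : k, (if (0 : k) ^ 3 = v ^ 3 then (1 : ℤ) else 0) = 1 := by
    have : ∀ v : k, (if (0 : k) ^ 3 = v ^ 3 then (1 : ℤ) else 0) = if v = 0 then 1 else 0 := by
      intro v
      by_cases hv : v = 0
      · subst hv; simp
      · rw [if_neg hv, if_neg]
        intro h
        rw [zero_pow (by norm_num)] at h
        exact hv (pow_eq_zero_iff (by norm_num) |>.1 h.symm)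
    rw [Finset.sum_congr rfl fun v _ => this v]
    simp
  rw [← Finset.add_sum_erase _ _ (Finset.mem_univ (0 : k)), h4,
    Finset.sum_congr rfl fun u hu => h1 u (Finset.ne_of_mem_erase hu), Finset.sum_const,
    Finset.card_erase_of_mem (Finset.mem_univ _), Finset.card_univ, nsmul_eq_mul,
    Nat.cast_sub Fintype.card_pos]
  push_cast
  ring

lemma TT_zero (h2 : (2 : k) ≠ 0) : TT (0 : k) 0 = 0 := by
  have h := TT_sing h2 (0 : k)
  have e1 : (-3 : k) * 0 ^ 2 = 0 := by ring
  have e2 : (2 : k) * 0 ^ 3 = 0 := by ring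
  rw [e1, e2, mul_zero, MulChar.map_zero] at h
  exact h

lemma SSc_two (h2 : (2 : k) ≠ 0) (h3 : (3 : k) ≠ 0) :
    SSc k 2 0 = (Fintype.card k : ℤ) * (Fintype.card k - 1) * (1 + quadraticChar k (-3)) := by
  have h1 : ∀ t : k, TT 0 t ^ 2 = ∑ u : k, ∑ v : k,
      quadraticChar k (t + u ^ 3) * quadraticChar k (t + v ^ 3) := by
    intro t
    rw [TT_eq, neg_sq, sq, Finset.sum_mul_sum]
    apply Finset.sum_congr rfl
    intro u _
    apply Finset.sum_congr rfl
    intro v _
    congr 2
    · ring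
    · ring
  have hall : ∑ t : k, TT 0 t ^ 2
      = (Fintype.card k : ℤ) * (Fintype.card k - 1) * (1 + quadraticChar k (-3)) := by
    calc ∑ t : k, TT 0 t ^ 2
        = ∑ u : k, ∑ v : k, ∑ t : k,
          quadraticChar k (t + u ^ 3) * quadraticChar k (t + v ^ 3) := by
          rw [Finset.sum_congr rfl fun t _ => h1 t]
          rw [Finset.sum_comm]
          apply Finset.sum_congr rfl
          intro u _
          rw [Finset.sum_comm]
      _ = ∑ u : k, ∑ v : k, ((Fintype.card k : ℤ) * (if u ^ 3 = v ^ 3 then (1 : ℤ) else 0) - 1) := by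
          apply Finset.sum_congr rfl
          intro u _
          apply Finset.sum_congr rfl
          intro v _
          rw [sum_char_two h2]
          split_ifs <;> ring
      _ = (Fintype.card k : ℤ) * (1 + (Fintype.card k - 1) * (2 + quadraticChar k (-3)))
          - (Fintype.card k : ℤ) ^ 2 := by
          rw [← card_cubes h2 h3]
          simp only [Finset.sum_sub_distrib, Finset.mul_sum]
          simp only [Finset.sum_const, Finset.card_univ, nsmul_eq_mul, mul_one]
          ring
      _ = _ := by ring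
  rw [← hall, SSc, Gz, ← Finset.add_sum_erase _ _ (Finset.mem_univ (0 : k)), TT_zero h2]
  have : Finset.univ.filter (fun t : k => t ≠ 0) = Finset.univ.erase 0 := by
    ext t; simp
  rw [this]
  simp

lemma card_Gz : ((Gz k).card : ℤ) ≤ Fintype.card k := by
  have h : (Gz k).card ≤ (Finset.univ : Finset k).card := Finset.card_filter_le _ _
  rw [Finset.card_univ] at h
  exact_mod_cast h

lemma bounds_pair {x : k × k} (h2 : (2 : k) ≠ 0) (hx : x ∈ Gd k) {a b : k} (ha : x.1 = a)
    (hb : x.2 = b) : TT a b ^ 2 ≤ 4 * Fintype.card k ∧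
      |(Fintype.card k : ℤ) - TT a b| ≤ 3 * Fintype.card k := by
  subst ha hb
  exact ⟨TT_bound h2 hx, abs_sub_le' h2 hx⟩

lemma bounds_Gz (h2 : (2 : k) ≠ 0) (h3 : (3 : k) ≠ 0) {t : k} (ht : t ∈ Gz k) :
    TT 0 t ^ 2 ≤ 4 * Fintype.card k ∧ |(Fintype.card k : ℤ) - TT 0 t| ≤ 3 * Fintype.card k :=
  bounds_pair h2 (mem_Gd_of h3 ht) rfl rfl

lemma SSc_four (h2 : (2 : k) ≠ 0) (h3 : (3 : k) ≠ 0) (r : ℕ) :
    |SSc k 4 r| ≤ 16 * 3 ^ r * (Fintype.card k : ℤ) ^ (r + 3) := by
  have hq := one_le_card (k := k)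
  have hterm : ∀ t ∈ Gz k, |TT 0 t ^ 4 * (Fintype.card k - TT 0 t) ^ r|
      ≤ 16 * (Fintype.card k : ℤ) ^ 2 * (3 * Fintype.card k) ^ r := by
    intro t ht
    obtain ⟨hb1, hb2⟩ := bounds_Gz h2 h3 ht
    rw [abs_mul, abs_pow, abs_pow]
    apply mul_le_mul
    · have h1 := hb1
      have h0 : 0 ≤ TT 0 t ^ 2 := sq_nonneg _
      calc |TT 0 t| ^ 4 = (TT 0 t ^ 2) ^ 2 := by
            rw [show (4 : ℕ) = 2 * 2 by norm_num, pow_mul, sq_abs]
        _ ≤ (4 * (Fintype.card k : ℤ)) ^ 2 := pow_le_pow_left₀ h0 h1 2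
        _ = _ := by ring
    · exact pow_le_pow_left₀ (abs_nonneg _) hb2 r
    · positivity
    · positivity
  calc |SSc k 4 r| ≤ ∑ t ∈ Gz k, |TT 0 t ^ 4 * (Fintype.card k - TT 0 t) ^ r| :=
        Finset.abs_sum_le_sum_abs _ _
    _ ≤ ∑ t ∈ Gz k, 16 * (Fintype.card k : ℤ) ^ 2 * (3 * Fintype.card k) ^ r :=
        Finset.sum_le_sum hterm
    _ = (Gz k).card * (16 * (Fintype.card k : ℤ) ^ 2 * (3 * Fintype.card k) ^ r) := by
        rw [Finset.sum_const, nsmul_eq_mul]
    _ ≤ (Fintype.card k : ℤ) * (16 * (Fintype.card k : ℤ) ^ 2 * (3 * Fintype.card k) ^ r) :=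
        mul_le_mul_of_nonneg_right card_Gz (by positivity)
    _ = _ := by rw [mul_pow]; ring

lemma SSc_three (h2 : (2 : k) ≠ 0) (h3 : (3 : k) ≠ 0) (r : ℕ) :
    |SSc k 3 r| ≤ C3 r * (Fintype.card k : ℤ) ^ (r + 2) := by
  have hq := one_le_card (k := k)
  induction r with
  | zero => rw [SSc_odd h2 (by decide)]; simp [C3]
  | succ r ih =>
    rw [SSc_succ]
    have h4 := SSc_four h2 h3 r
    calc |(Fintype.card k : ℤ) * SSc k 3 r - SSc k (3 + 1) r|
        ≤ |(Fintype.card k : ℤ) * SSc k 3 r| + |SSc k (3 + 1) r| := abs_sub _ _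
      _ = (Fintype.card k : ℤ) * |SSc k 3 r| + |SSc k 4 r| := by
          rw [abs_mul, abs_of_nonneg (by linarith)]
      _ ≤ (Fintype.card k : ℤ) * (C3 r * (Fintype.card k : ℤ) ^ (r + 2))
          + 16 * 3 ^ r * (Fintype.card k : ℤ) ^ (r + 3) := by
          gcongr
      _ = _ := by rw [C3]; ring

/-- `1 + χ(-3)`. -/
def kap (k : Type*) [Field k] [Fintype k] [DecidableEq k] : ℤ := 1 + quadraticChar k (-3)

lemma kap_nonneg (h3 : (3 : k) ≠ 0) : 0 ≤ kap k ∧ kap k ≤ 2 := by
  have h : (-3 : k) ≠ 0 := neg_ne_zero.2 h3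
  rcases quadraticChar_dichotomy h with h | h <;> rw [kap, h] <;> norm_num

lemma SSc_two' (h2 : (2 : k) ≠ 0) (h3 : (3 : k) ≠ 0) (r : ℕ) :
    |SSc k 2 r - kap k * (Fintype.card k : ℤ) ^ (r + 2)| ≤ C2 r * (Fintype.card k : ℤ) ^ (r + 1) := by
  have hq := one_le_card (k := k)
  induction r with
  | zero =>
    obtain ⟨hk0, hk2⟩ := kap_nonneg h3
    rw [SSc_two h2 h3, C2]
    have e : (Fintype.card k : ℤ) * (Fintype.card k - 1) * (1 + quadraticChar k (-3))
        - kap k * (Fintype.card k : ℤ) ^ (0 + 2) = -(kap k * Fintype.card k) := by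
      rw [kap]; ring
    rw [e, abs_neg, abs_of_nonneg (by positivity), zero_add, pow_one]
    exact mul_le_mul_of_nonneg_right hk2 (by positivity)
  | succ r ih =>
    rw [SSc_succ]
    have h4 := SSc_three h2 h3 r
    calc |(Fintype.card k : ℤ) * SSc k 2 r - SSc k (2 + 1) r
          - kap k * (Fintype.card k : ℤ) ^ (r + 1 + 2)|
        = |(Fintype.card k : ℤ) * (SSc k 2 r - kap k * (Fintype.card k : ℤ) ^ (r + 2))
          - SSc k 3 r| := by
          congr 1; ring
      _ ≤ |(Fintype.card k : ℤ) * (SSc k 2 r - kap k * (Fintype.card k : ℤ) ^ (r + 2))|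
          + |SSc k 3 r| := abs_sub _ _
      _ = (Fintype.card k : ℤ) * |SSc k 2 r - kap k * (Fintype.card k : ℤ) ^ (r + 2)|
          + |SSc k 3 r| := by
          rw [abs_mul, abs_of_nonneg (by linarith)]
      _ ≤ (Fintype.card k : ℤ) * (C2 r * (Fintype.card k : ℤ) ^ (r + 1))
          + C3 r * (Fintype.card k : ℤ) ^ (r + 2) := by
          gcongr
      _ = _ := by rw [C2]; ring

/-- The main asymptotics. -/
theorem SSc_one (h2 : (2 : k) ≠ 0) (h3 : (3 : k) ≠ 0) (r : ℕ) :
    |SSc k 1 r + r * kap k * (Fintype.card k : ℤ) ^ (r + 1)|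
      ≤ C1 r * (Fintype.card k : ℤ) ^ r := by
  have hq := one_le_card (k := k)
  induction r with
  | zero => rw [SSc_odd h2 (by decide)]; simp [C1]
  | succ r ih =>
    rw [SSc_succ]
    have h4 := SSc_two' h2 h3 r
    calc |(Fintype.card k : ℤ) * SSc k 1 r - SSc k (1 + 1) r
          + ((r + 1 : ℕ) : ℤ) * kap k * (Fintype.card k : ℤ) ^ (r + 1 + 1)|
        = |(Fintype.card k : ℤ) * (SSc k 1 r + r * kap k * (Fintype.card k : ℤ) ^ (r + 1))
          - (SSc k 2 r - kap k * (Fintype.card k : ℤ) ^ (r + 2))| := by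
          congr 1; push_cast; ring
      _ ≤ |(Fintype.card k : ℤ) * (SSc k 1 r + r * kap k * (Fintype.card k : ℤ) ^ (r + 1))|
          + |SSc k 2 r - kap k * (Fintype.card k : ℤ) ^ (r + 2)| := abs_sub _ _
      _ = (Fintype.card k : ℤ) * |SSc k 1 r + r * kap k * (Fintype.card k : ℤ) ^ (r + 1)|
          + |SSc k 2 r - kap k * (Fintype.card k : ℤ) ^ (r + 2)| := by
          rw [abs_mul, abs_of_nonneg (by linarith)]
      _ ≤ (Fintype.card k : ℤ) * (C1 r * (Fintype.card k : ℤ) ^ r)
          + C2 r * (Fintype.card k : ℤ) ^ (r + 1) := by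
          gcongr
      _ = _ := by rw [C1]; ring

/-- A bound for the sum of the absolute values. -/
theorem SSc_abs (h2 : (2 : k) ≠ 0) (h3 : (3 : k) ≠ 0) (r : ℕ) :
    ∑ t ∈ Gz k, |((TT 0 t * (Fintype.card k - TT 0 t) ^ r : ℤ) : ℝ)|
      ≤ 2 * 3 ^ r * (Fintype.card k : ℝ) ^ (r + 1) * Real.sqrt (Fintype.card k) := by
  have hq := one_le_card (k := k)
  have hterm : ∀ t ∈ Gz k, |((TT 0 t * (Fintype.card k - TT 0 t) ^ r : ℤ) : ℝ)|
      ≤ 2 * Real.sqrt (Fintype.card k) * (3 * Fintype.card k) ^ r := by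
    intro t ht
    obtain ⟨hb1, hb2⟩ := bounds_Gz h2 h3 ht
    push_cast
    rw [abs_mul, abs_pow]
    apply mul_le_mul
    · have h1 := hb1
      have h1' : ((TT 0 t : ℝ)) ^ 2 ≤ 4 * Fintype.card k := by exact_mod_cast h1
      apply abs_le_of_sq_le_sq _ (by positivity)
      rw [mul_pow, Real.sq_sqrt (by positivity)]
      linarith
    · apply pow_le_pow_left₀ (abs_nonneg _)
      exact_mod_cast hb2
    · positivity
    · positivity
  have hcard : ((Gz k).card : ℝ) ≤ (Fintype.card k : ℝ) := by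
    have := card_Gz (k := k)
    exact_mod_cast this
  calc _ ≤ ∑ t ∈ Gz k, 2 * Real.sqrt (Fintype.card k) * (3 * (Fintype.card k : ℝ)) ^ r :=
        Finset.sum_le_sum hterm
    _ = (Gz k).card * (2 * Real.sqrt (Fintype.card k) * (3 * (Fintype.card k : ℝ)) ^ r) := by
        rw [Finset.sum_const, nsmul_eq_mul]
    _ ≤ (Fintype.card k : ℝ) * (2 * Real.sqrt (Fintype.card k)
          * (3 * (Fintype.card k : ℝ)) ^ r) :=
        mul_le_mul_of_nonneg_right hcard (by positivity)
    _ = _ := by rw [mul_pow]; ring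

end moments

section residue

variable {k : Type*} [Field k] [Fintype k] [DecidableEq k]

/-- `-3` is a square in a finite field of characteristic `≠ 2, 3` iff `q ≡ 1 mod 3`. -/
lemma char_neg_three (h2 : (2 : k) ≠ 0) (h3 : (3 : k) ≠ 0) :
    quadraticChar k (-3) = quadraticChar (ZMod 3) (Fintype.card k : ZMod 3) := by
  have hm3 : (-3 : k) ≠ 0 := neg_ne_zero.2 h3
  have hcard : Fintype.card kˣ = Fintype.card k - 1 := Fintype.card_units k
  have hpos : 0 < Fintype.card k := Fintype.card_pos
  have hq3 : ¬ 3 ∣ Fintype.card k := by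
    intro h
    apply h3
    obtain ⟨m, hm⟩ := h
    obtain ⟨p, hp⟩ := CharP.exists k
    have hp' : p.Prime := CharP.char_is_prime k p
    have hpk : p ∣ Fintype.card k := by
      have : ((Fintype.card k : ℕ) : k) = 0 := Nat.cast_card_eq_zero k
      exact (CharP.cast_eq_zero_iff k p _).1 this
    obtain ⟨n, -, hn⟩ := FiniteField.card k p
    have h3p : 3 ∣ p ^ (n : ℕ) := by rw [← hn, hm]; exact dvd_mul_right _ _
    have h3p' : 3 ∣ p := Nat.prime_three.dvd_of_dvd_pow h3p
    have h3p'' : p = 3 := ((Nat.prime_dvd_prime_iff_eq Nat.prime_three hp').1 h3p').symm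
    have : ((3 : ℕ) : k) = 0 := by rw [← h3p'']; exact CharP.cast_eq_zero k p
    exact_mod_cast this
  by_cases hmod : Fintype.card k % 3 = 1
  · have hz : (Fintype.card k : ZMod 3) = 1 := by
      have : (Fintype.card k : ZMod 3) = ((1 : ℕ) : ZMod 3) := by
        rw [ZMod.natCast_eq_natCast_iff]
        exact hmod
      rw [this]; rfl
    rw [hz, map_one, quadraticChar_one_iff_isSquare hm3]
    have h31 : 3 ∣ Fintype.card kˣ := by
      rw [hcard]; omega
    have : Fact (Nat.Prime 3) := ⟨Nat.prime_three⟩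
    obtain ⟨w, hw⟩ := exists_prime_orderOf_dvd_card 3 h31
    have hw1 : (w : k) ≠ 1 := by
      intro h
      have : w = 1 := Units.ext h
      rw [this, orderOf_one] at hw
      norm_num at hw
    have hw3 : (w : k) ^ 3 = 1 := by
      have := pow_orderOf_eq_one w
      rw [hw] at this
      have h := congrArg Units.val this
      rwa [Units.val_pow_eq_pow_val, Units.val_one] at h
    have hw0 : (w : k) ^ 2 + w + 1 = 0 := by
      have : ((w : k) - 1) * ((w : k) ^ 2 + w + 1) = 0 := by linear_combination hw3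
      exact (mul_eq_zero.1 this).resolve_left (sub_ne_zero.2 hw1)
    exact ⟨2 * w + 1, by linear_combination (-4) * hw0⟩
  · have hmod2 : Fintype.card k % 3 = 2 := by omega
    have hz : (Fintype.card k : ZMod 3) = 2 := by
      have : (Fintype.card k : ZMod 3) = ((2 : ℕ) : ZMod 3) := by
        rw [ZMod.natCast_eq_natCast_iff]
        exact hmod2
      rw [this]; rfl
    have hc2 : quadraticChar (ZMod 3) 2 = -1 := by decide
    rw [hz, hc2, quadraticChar_neg_one_iff_not_isSquare]
    rintro ⟨z, hz⟩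
    have h1 : ((z - 1) / 2) ^ 2 + (z - 1) / 2 + 1 = 0 := by
      field_simp
      linear_combination -hz
    set w := (z - 1) / 2 with hw
    have hw3 : w ^ 3 = 1 := by linear_combination (w - 1) * h1
    have hw0 : w ≠ 0 := by
      intro h
      rw [h] at hw3
      norm_num at hw3
    have hw1 : w ≠ 1 := by
      intro h
      rw [h] at h1
      apply h3
      linear_combination h1
    have hord : orderOf (Units.mk0 w hw0) = 3 := by
      have : Fact (Nat.Prime 3) := ⟨Nat.prime_three⟩
      refine orderOf_eq_prime ?_ ?_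
      · ext
        rw [Units.val_pow_eq_pow_val, Units.val_mk0, Units.val_one]
        exact hw3
      · intro h
        apply hw1
        exact congrArg Units.val h
    have hdvd := orderOf_dvd_card (x := Units.mk0 w hw0)
    rw [hord, hcard] at hdvd
    omega

end residue

end Pool.Agent.Hhelper78.CM
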