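import Mathlib
import Pool.Agent.Hhelper85.Analytic
import Pool.Agent.Hhelper78.CM.Base
import Pool.Agent.Hhelper78.CM.Moments

/-!
# Sums over points of the tower over `y² = x³ + t`
-/

set_option linter.unusedSectionVars false

namespace Pool.Agent.Hhelper78.CM

open Polynomial WeierstrassCurve WeierstrassCurve.Affine Pool.Agent.TateBSD Pool.Agent.Hhelper85

section ft

lemma ft_sbase (R₀ : Type) [CommRing R₀] (h : Algebra.FiniteType ℤ R₀) :
    Algebra.FiniteType ℤ (sexticBase R₀).R := by
  have h0 : @Algebra.FiniteType ℤ R₀[X] _ _ (Ring.toIntAlgebra _) :=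
    ft_trans (A := R₀) (B := R₀[X]) h inferInstance
  exact ft_trans (A := R₀[X]) (B := SR R₀) h0 inferInstance

instance ft_sextic (R₀ : Type) [CommRing R₀] [Algebra.FiniteType ℤ R₀] (r : ℕ) :
    Algebra.FiniteType ℤ (sextic R₀ r).R := by
  induction r with
  | zero => exact ft_sbase R₀ ‹_›
  | succ r ih =>
    rw [sextic_succ]
    exact ft_adjoin _ ih

end ft

section unit

lemma unitGood_sbase (R₀ : Type) [CommRing R₀] (h6 : IsUnit (6 : R₀)) :
    UnitGood (sexticBase R₀) where
  two := by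
    have := (six_units h6).1.map ((algebraMap R₀[X] (SR R₀)).comp C)
    rw [map_ofNat] at this
    exact this
  dsc := by
    have h1 : IsUnit (2 : SR R₀) := by
      have := (six_units h6).1.map ((algebraMap R₀[X] (SR R₀)).comp C)
      rw [map_ofNat] at this
      exact this
    have h1' : IsUnit (3 : SR R₀) := by
      have := (six_units h6).2.map ((algebraMap R₀[X] (SR R₀)).comp C)
      rw [map_ofNat] at this
      exact this
    have h3 : Pool.Agent.Hhelper85.dsc (0 : SR R₀) 0 tS
        = -(2 ^ 4 * 3 ^ 3) * (tS : SR R₀) ^ 2 := by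
      rw [Pool.Agent.Hhelper85.dsc]; ring
    have h4 : IsUnit (Pool.Agent.Hhelper85.dsc (0 : SR R₀) 0 tS) := by
      rw [h3]
      exact (((h1.pow 4).mul (h1'.pow 3)).neg).mul (isUnit_tS.pow 2)
    exact h4

lemma unitGood_sextic (R₀ : Type) [CommRing R₀] (h6 : IsUnit (6 : R₀)) (r : ℕ) :
    UnitGood (sextic R₀ r) := by
  induction r with
  | zero => exact unitGood_sbase R₀ h6
  | succ r ih => rw [sextic_succ]; exact ih.adjoin

end unit

section sums

variable {k : Type*} [Field k] [Fintype k] [DecidableEq k] {A : Type*} [CommRing A]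

/-- Homomorphisms out of `R₀[t, 1/t]`. -/
noncomputable def homEquivS (R₀ : Type*) [CommRing R₀] :
    (SR R₀ →+* k) ≃ (R₀ →+* k) × {t : k // t ∈ Gz k} where
  toFun g := (g.comp ((algebraMap R₀[X] (SR R₀)).comp C), ⟨g tS, by
    rw [mem_Gz]
    exact ((isUnit_tS (R₀ := R₀)).map g).ne_zero⟩)
  invFun z := liftS z.1 z.2.1 (isUnit_iff_ne_zero.2 (mem_Gz.1 z.2.2))
  left_inv g := by
    apply IsLocalization.ringHom_ext (Submonoid.powers (X : R₀[X]))
    apply Polynomial.ringHom_ext
    · intro r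
      simp only [RingHom.coe_comp, Function.comp_apply]
      rw [liftS_algebraMap, coe_eval₂RingHom, eval₂_C]
      rfl
    · simp only [RingHom.coe_comp, Function.comp_apply]
      rw [liftS_algebraMap, coe_eval₂RingHom, eval₂_X]
      rfl
  right_inv := by
    rintro ⟨f, ⟨y, h⟩⟩
    apply Prod.ext
    · ext r
      simp only [RingHom.coe_comp, Function.comp_apply]
      rw [liftS_algebraMap, coe_eval₂RingHom, eval₂_C]
    · apply Subtype.ext
      simp only
      rw [liftS_t]

lemma sum_SR (R₀ : Type*) [CommRing R₀] [Fintype (R₀ →+* k)] [Fintype (SR R₀ →+* k)]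
    (g : k → k → A) :
    ∑ ψ : SR R₀ →+* k, g (ψ 0) (ψ tS) = Fintype.card (R₀ →+* k) * ∑ t ∈ Gz k, g 0 t := by
  simp only [map_zero]
  rw [Fintype.sum_equiv (homEquivS (k := k) R₀)
    (fun ψ : SR R₀ →+* k => g 0 (ψ tS)) (fun z => g 0 z.2.1)
    (fun ψ => rfl), Fintype.sum_prod_type]
  simp only [Finset.sum_const, Finset.card_univ, nsmul_eq_mul]
  congr 1
  exact Finset.sum_coe_sort (Gz k) (fun t => g 0 t)

theorem sum_sextic (R₀ : Type) [CommRing R₀] (h6 : IsUnit (6 : R₀)) [Fintype (R₀ →+* k)]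
    (hfin : ∀ r, Finite ((sextic R₀ r).R →+* k)) (r : ℕ) :
    ∀ [Fintype ((sextic R₀ r).R →+* k)] (g : k → k → A),
    ∑ ψ : (sextic R₀ r).R →+* k, g (ψ (sextic R₀ r).a) (ψ (sextic R₀ r).b)
      = Fintype.card (R₀ →+* k) * ∑ t ∈ Gz k, ((Fintype.card k : A) - (TT 0 t : ℤ)) ^ r
          * g 0 t := by
  induction r with
  | zero =>
    intro inst g
    let _ : Fintype (SR R₀ →+* k) := inst
    have h := sum_SR (k := k) (A := A) R₀ g
    simp only [pow_zero, one_mul]
    exact h
  | succ r ih =>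
    have := hfin r
    have := Fintype.ofFinite ((sextic R₀ r).R →+* k)
    rw [sextic_succ]
    intro inst g
    rw [sum_adjoin (unitGood_sextic R₀ h6 r)]
    have h := ih (fun x y => ((Fintype.card k : A) - (TT x y : ℤ)) * g x y)
    rw [h]
    congr 1
    apply Finset.sum_congr rfl
    intro x _
    rw [pow_succ]
    ring

end sums

end Pool.Agent.Hhelper78.CM
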