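import Mathlib
import Pool.Agent.Hhelper78.CM.TowerSum

/-!
# The analytic part for the tower over `y² = x³ + t`
-/

set_option linter.unusedSectionVars false

namespace Pool.Agent.Hhelper78.CM

open Polynomial WeierstrassCurve WeierstrassCurve.Affine Pool.Agent.TateBSD Pool.Agent.Hhelper85

section main

/-- The first moment attached to `(p, n)`. -/
noncomputable def SScx (r : ℕ) (x : Nat.Primes × ℕ) : ℤ :=
  @SSc (GF x.1 x.2) _ (Fintype.ofFinite _) (Classical.decEq _) 1 r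

/-- `1 + χ(-3)` for the field with `p ^ n` elements. -/
noncomputable def kx (x : Nat.Primes × ℕ) : ℤ :=
  @kap (GF x.1 x.2) _ (Fintype.ofFinite _) (Classical.decEq _)

local instance primeFact' (p : Nat.Primes) : Fact (p : ℕ).Prime := ⟨p.2⟩

variable {R₀ : Type} [CommRing R₀] [Algebra.FiniteType ℤ R₀] (h6 : IsUnit (6 : R₀))
include h6

/-- The bound for the terms. -/
lemma SScx_bound (r : ℕ) {x : Nat.Primes × ℕ} (h : hN R₀ x ≠ 0) (hx : x.2 ≠ 0) :
    |((SScx r x + r * kx x * ((x.1 : ℤ) ^ x.2) ^ (r + 1) : ℤ) : ℝ)|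
      ≤ (C1 r : ℝ) * ((x.1 : ℝ) ^ x.2) ^ r := by
  obtain ⟨h2, h3⟩ := hN_ne_zero h6 h
  let _ : Fintype (GF x.1 x.2) := Fintype.ofFinite _
  let _ : DecidableEq (GF x.1 x.2) := Classical.decEq _
  have h1 := SSc_one h2 h3 r
  have hc : Fintype.card (GF x.1 x.2) = (x.1 : ℕ) ^ x.2 := by
    rw [← Nat.card_eq_fintype_card]; exact card_GF hx
  rw [hc] at h1
  push_cast at h1
  exact_mod_cast h1

lemma kx_bound {x : Nat.Primes × ℕ} (h : hN R₀ x ≠ 0) : |(kx x : ℝ)| ≤ 2 := by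
  obtain ⟨h2, h3⟩ := hN_ne_zero h6 h
  let _ : Fintype (GF x.1 x.2) := Fintype.ofFinite _
  let _ : DecidableEq (GF x.1 x.2) := Classical.decEq _
  obtain ⟨h4, h5⟩ := kap_nonneg (k := GF x.1 x.2) h3
  have h4' : (0 : ℝ) ≤ kx x := by exact_mod_cast h4
  have h5' : (kx x : ℝ) ≤ 2 := by exact_mod_cast h5
  rw [abs_of_nonneg h4']
  exact h5'

/-- The logarithmic remainder. -/
noncomputable def HHc (R₀ : Type) [CommRing R₀] (r : ℕ) (s : ℂ) : ℂ :=
  ∑' x : Nat.Primes × ℕ,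
    (hN R₀ x : ℂ) * ((SScx r x + r * kx x * ((x.1 : ℤ) ^ x.2) ^ (r + 1) : ℤ) : ℂ) * pw s x

/-- The logarithm of the zeta function of `R₀[ω]`. -/
noncomputable def LZc (R₀ : Type) [CommRing R₀] (s : ℂ) : ℂ :=
  ∑' x : Nat.Primes × ℕ, (hN R₀ x : ℂ) * (kx x : ℂ) * pw s x

lemma term_bound_c (r : ℕ) (s : ℂ) (x : Nat.Primes × ℕ) :
    ‖(hN R₀ x : ℂ) * ((SScx r x + r * kx x * ((x.1 : ℤ) ^ x.2) ^ (r + 1) : ℤ) : ℂ) * pw s x‖
      ≤ C1 r * (hN R₀ x * pr (s.re - (r : ℕ)) x) := by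
  obtain ⟨p, n⟩ := x
  by_cases hn : n = 0
  · subst hn
    simp [pw, pr]
  by_cases h : hN R₀ (p, n) = 0
  · simp [h]
  · have h1 := SScx_bound h6 r h hn
    rw [norm_mul, norm_mul, Complex.norm_natCast, Complex.norm_intCast, norm_pw,
      ← pow_mul_pr]
    calc (hN R₀ (p, n) : ℝ)
          * |((SScx r (p, n) + r * kx (p, n) * ((p : ℤ) ^ n) ^ (r + 1) : ℤ) : ℝ)|
          * pr s.re (p, n)
        ≤ (hN R₀ (p, n) : ℝ) * ((C1 r : ℝ) * ((p : ℝ) ^ n) ^ r) * pr s.re (p, n) := by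
          apply mul_le_mul_of_nonneg_right _ (pr_nonneg _ _)
          exact mul_le_mul_of_nonneg_left h1 (by positivity)
      _ = _ := by ring

variable {d : ℝ} (hd : ∀ σ : ℝ, d < σ → Summable fun x : Nat.Primes × ℕ => (hN R₀ x : ℝ) * pr σ x)
include hd

lemma summable_HHc (r : ℕ) {s : ℂ} (hs : d + r < s.re) :
    Summable fun x : Nat.Primes × ℕ =>
      (hN R₀ x : ℂ) * ((SScx r x + r * kx x * ((x.1 : ℤ) ^ x.2) ^ (r + 1) : ℤ) : ℂ) * pw s x := by
  apply Summable.of_norm_bounded (g := fun x => C1 r * (hN R₀ x * pr (s.re - (r : ℕ)) x))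
  · apply Summable.mul_left
    apply hd
    linarith
  · exact term_bound_c h6 r s

/-- `HHc` is holomorphic. -/
lemma differentiableOn_HHc (r : ℕ) :
    DifferentiableOn ℂ (HHc R₀ r) {s : ℂ | d + r < s.re} := by
  intro s hs
  have hs' : d + r < s.re := hs
  obtain ⟨τ, h1, h2⟩ := exists_between hs'
  have hopen : IsOpen {s : ℂ | τ < s.re} := isOpen_lt continuous_const Complex.continuous_re
  have key : DifferentiableOn ℂ (HHc R₀ r) {s : ℂ | τ < s.re} := by
    apply Complex.differentiableOn_tsum_of_summable_norm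
      (u := fun x => C1 r * (hN R₀ x * pr (τ - (r : ℕ)) x))
    · apply Summable.mul_left
      apply hd
      linarith
    · intro x
      exact ((differentiable_pw x).const_mul _).differentiableOn
    · exact hopen
    · intro x w hw
      refine (term_bound_c h6 r w x).trans ?_
      have hw' : τ ≤ w.re := le_of_lt hw
      have hC : (0 : ℝ) ≤ C1 r := by
        have := C1_nonneg r
        exact_mod_cast this
      apply mul_le_mul_of_nonneg_left _ hC
      apply mul_le_mul_of_nonneg_left _ (by positivity)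
      apply pr_anti
      linarith
  exact ((key s h2).differentiableAt (hopen.mem_nhds h2)).differentiableWithinAt

end main

section fibre

variable {R₀ : Type} [CommRing R₀] [Algebra.FiniteType ℤ R₀] (h6 : IsUnit (6 : R₀))
include h6

omit [Algebra.FiniteType ℤ R₀] h6 in
lemma trc_TTc {k : Type*} [Field k] [Fintype k] [DecidableEq k] (h2 : (2 : k) ≠ 0)
    (h3 : (3 : k) ≠ 0) {t : k} (ht : t ∈ Gz k) : trc k 0 0 t = TT 0 t :=
  trc_TT (x := (0, t)) h2 (mem_Gd_of h3 ht)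

omit [Algebra.FiniteType ℤ R₀] h6 in
lemma affine_nonneg_c {k : Type*} [Field k] [Fintype k] [DecidableEq k] (h2 : (2 : k) ≠ 0)
    (h3 : (3 : k) ≠ 0) {t : k} (ht : t ∈ Gz k) : 0 ≤ (Fintype.card k : ℤ) - TT 0 t :=
  affine_nonneg (x := (0, t)) h2 (mem_Gd_of h3 ht)

lemma sum_trc_c (r : ℕ) (x : Nat.Primes × ℕ) [Fintype ((sextic R₀ r).R →+* GF x.1 x.2)] :
    ∑ ψ : (sextic R₀ r).R →+* GF x.1 x.2,
      (trc (GF x.1 x.2) (ψ 0) (ψ (sextic R₀ r).a) (ψ (sextic R₀ r).b) : ℂ)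
      = hN R₀ x * SScx r x := by
  let _ : Fintype (GF x.1 x.2) := Fintype.ofFinite _
  let _ : DecidableEq (GF x.1 x.2) := Classical.decEq _
  have := finite_hom (R := R₀) (GF x.1 x.2)
  let _ : Fintype (R₀ →+* GF x.1 x.2) := Fintype.ofFinite _
  have h := sum_sextic (k := GF x.1 x.2) (A := ℂ) R₀ h6
    (fun r => finite_hom (R := (sextic R₀ r).R) (GF x.1 x.2)) r
    (fun a b => (trc (GF x.1 x.2) 0 a b : ℂ))
  simp only [map_zero]
  rw [h, hN, Nat.card_eq_fintype_card]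
  by_cases hne : Nonempty (R₀ →+* GF x.1 x.2)
  · obtain ⟨h2, h3⟩ := ne_of_hom h6 hne.some
    congr 1
    rw [SScx, SSc]
    push_cast
    apply Finset.sum_congr rfl
    intro y hy
    rw [trc_TTc h2 h3 hy]
    ring
  · rw [not_nonempty_iff] at hne
    rw [Fintype.card_eq_zero]
    simp

lemma sum_abs_trc_c (r : ℕ) {x : Nat.Primes × ℕ} (hx : x.2 ≠ 0)
    [Fintype ((sextic R₀ r).R →+* GF x.1 x.2)] :
    ∑ ψ : (sextic R₀ r).R →+* GF x.1 x.2,
      |(trc (GF x.1 x.2) (ψ 0) (ψ (sextic R₀ r).a) (ψ (sextic R₀ r).b) : ℝ)|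
      ≤ hN R₀ x * (2 * 3 ^ r * ((x.1 : ℝ) ^ x.2) ^ (r + 1) * Real.sqrt ((x.1 : ℝ) ^ x.2)) := by
  let _ : Fintype (GF x.1 x.2) := Fintype.ofFinite _
  let _ : DecidableEq (GF x.1 x.2) := Classical.decEq _
  have := finite_hom (R := R₀) (GF x.1 x.2)
  let _ : Fintype (R₀ →+* GF x.1 x.2) := Fintype.ofFinite _
  have h := sum_sextic (k := GF x.1 x.2) (A := ℝ) R₀ h6
    (fun r => finite_hom (R := (sextic R₀ r).R) (GF x.1 x.2)) r
    (fun a b => |(trc (GF x.1 x.2) 0 a b : ℝ)|)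
  simp only [map_zero]
  rw [h, hN, Nat.card_eq_fintype_card]
  by_cases hne : Nonempty (R₀ →+* GF x.1 x.2)
  · obtain ⟨h2, h3⟩ := ne_of_hom h6 hne.some
    apply mul_le_mul_of_nonneg_left _ (by positivity)
    have h1 := SSc_abs h2 h3 r
    have hc : Fintype.card (GF x.1 x.2) = (x.1 : ℕ) ^ x.2 := by
      rw [← Nat.card_eq_fintype_card]; exact card_GF hx
    rw [hc] at h1
    push_cast at h1
    refine le_trans (le_of_eq ?_) h1
    apply Finset.sum_congr rfl
    intro y hy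
    rw [trc_TTc h2 h3 hy]
    have h4 := affine_nonneg_c h2 h3 hy
    rw [hc] at h4 ⊢
    have h5 : (0 : ℝ) ≤ (x.1 : ℝ) ^ x.2 - TT 0 y := by exact_mod_cast h4
    push_cast
    rw [abs_mul, abs_of_nonneg (pow_nonneg h5 r)]
    ring
  · rw [not_nonempty_iff] at hne
    rw [Fintype.card_eq_zero]
    simp

end fibre

section total

variable {R₀ : Type} [CommRing R₀] [Algebra.FiniteType ℤ R₀]

variable (h6 : IsUnit (6 : R₀)) {d : ℝ}
  (hd : ∀ σ : ℝ, d < σ → Summable fun x : Nat.Primes × ℕ => (hN R₀ x : ℝ) * pr σ x)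
include h6 hd

lemma summable_vH_c (r : ℕ) {s : ℂ} (hs : d + r + 3 / 2 < s.re) :
    Summable (vH (R := (sextic R₀ r).R) 0 (sextic R₀ r).a (sextic R₀ r).b s) := by
  rw [← summable_norm_iff]
  rw [summable_sigma_of_nonneg (fun _ => norm_nonneg _)]
  refine ⟨fun x => ?_, ?_⟩
  · have := finite_hom (R := (sextic R₀ r).R) (GF x.1 x.2)
    exact Summable.of_finite
  · apply Summable.of_nonneg_of_le (f := fun x => 2 * 3 ^ r * (hN R₀ x
      * pr (s.re - (r + 1 : ℕ) - 1 / 2) x))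
    · intro x
      exact tsum_nonneg (fun _ => norm_nonneg _)
    · intro x
      have := finite_hom (R := (sextic R₀ r).R) (GF x.1 x.2)
      let _ := Fintype.ofFinite ((sextic R₀ r).R →+* GF x.1 x.2)
      rw [tsum_fintype]
      simp only [norm_vH]
      rw [← Finset.sum_mul]
      by_cases hx : x.2 = 0
      · obtain ⟨p, n⟩ := x
        simp only at hx
        subst hx
        simp [pr]
      · rw [← sqrt_mul_pr, ← pow_mul_pr]
        calc _ ≤ (hN R₀ x * (2 * 3 ^ r * ((x.1 : ℝ) ^ x.2) ^ (r + 1)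
              * Real.sqrt ((x.1 : ℝ) ^ x.2))) * pr s.re x :=
            mul_le_mul_of_nonneg_right (sum_abs_trc_c h6 r hx) (pr_nonneg _ _)
          _ = _ := by ring
    · apply Summable.mul_left
      apply hd
      push_cast
      linarith

lemma summable_LZc {s : ℂ} (hs : d < s.re) :
    Summable fun x : Nat.Primes × ℕ => (hN R₀ x : ℂ) * (kx x : ℂ) * pw s x := by
  apply Summable.of_norm_bounded (g := fun x => 2 * (hN R₀ x * pr s.re x))
  · apply Summable.mul_left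
    exact hd _ hs
  · intro x
    rw [norm_mul, norm_mul, Complex.norm_natCast, Complex.norm_intCast, norm_pw]
    by_cases h : hN R₀ x = 0
    · simp [h]
    · have h1 := kx_bound h6 h
      calc (hN R₀ x : ℝ) * |(kx x : ℝ)| * pr s.re x
          ≤ (hN R₀ x : ℝ) * 2 * pr s.re x := by
            apply mul_le_mul_of_nonneg_right _ (pr_nonneg _ _)
            exact mul_le_mul_of_nonneg_left h1 (by positivity)
        _ = _ := by ring

lemma tsum_vH_c (r : ℕ) {s : ℂ} (hs : d + r + 3 / 2 < s.re) :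
    ∑' h, vH (R := (sextic R₀ r).R) 0 (sextic R₀ r).a (sextic R₀ r).b s h
      = HHc R₀ r s - r * LZc R₀ (s - (r + 1 : ℕ)) := by
  have h1 := summable_vH_c h6 hd r hs
  rw [h1.tsum_sigma]
  have h2 : ∀ x : Nat.Primes × ℕ,
      ∑' ψ : (sextic R₀ r).R →+* GF x.1 x.2,
        vH (R := (sextic R₀ r).R) 0 (sextic R₀ r).a (sextic R₀ r).b s ⟨x, ψ⟩
      = (hN R₀ x : ℂ) * ((SScx r x + r * kx x * ((x.1 : ℤ) ^ x.2) ^ (r + 1) : ℤ) : ℂ) * pw s x
        - r * ((hN R₀ x : ℂ) * (kx x : ℂ) * pw (s - (r + 1 : ℕ)) x) := by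
    intro x
    have := finite_hom (R := (sextic R₀ r).R) (GF x.1 x.2)
    let _ := Fintype.ofFinite ((sextic R₀ r).R →+* GF x.1 x.2)
    rw [tsum_fintype]
    simp only [vH_eq_pw]
    rw [← Finset.sum_mul, sum_trc_c h6, ← pow_mul_pw]
    push_cast
    ring
  simp only [h2]
  have h3 : Summable fun x : Nat.Primes × ℕ =>
      (r : ℂ) * ((hN R₀ x : ℂ) * (kx x : ℂ) * pw (s - (r + 1 : ℕ)) x) := by
    apply Summable.mul_left
    apply summable_LZc h6 hd
    simp only [Complex.sub_re, Complex.natCast_re]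
    push_cast
    linarith
  rw [(summable_HHc h6 hd r (by linarith)).tsum_sub h3, tsum_mul_left]
  rfl

/-- The Euler product of the tower over `y² = x³ + t`. -/
theorem hasProd_sextic (hd0 : 0 ≤ d) (r : ℕ) {s : ℂ} (hs : d + r + 3 / 2 < s.re) :
    HasProd (fun m : MaximalSpectrum (sextic R₀ r).R => localFactor (sextic R₀ r).curve m s)
      (Complex.exp (HHc R₀ r s - r * LZc R₀ (s - (r + 1 : ℕ)))) := by
  have hU := unitGood_sextic R₀ h6 r
  have h := euler_product (R := (sextic R₀ r).R) (a := 0) (b := (sextic R₀ r).a)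
    (c := (sextic R₀ r).b) hU.two hU.dsc (s := s) (by
      have : (0 : ℝ) ≤ r := by positivity
      linarith) (summable_vH_c h6 hd r hs)
  rw [tsum_vH_c h6 hd r hs] at h
  exact h

end total

end Pool.Agent.Hhelper78.CM
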