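import Mathlib
import Pool.Agent.Hhelper78.CM.Analytic
import Pool.Agent.Hhelper85.ZN

/-!
# The Dirichlet series `LZc` for the base `ℤ[1/N]`
-/

set_option linter.unusedSectionVars false

namespace Pool.Agent.Hhelper78.CM

open Pool.Agent.TateBSD Pool.Agent.Hhelper85 Filter Topology

local instance primeFactZ (p : Nat.Primes) : Fact (p : ℕ).Prime := ⟨p.2⟩

/-- The Euler factors at the primes dividing `N` of the `L`-function of `χ`. -/
noncomputable def PX {M : ℕ} (χ : DirichletCharacter ℂ M) (N : ℕ) (s : ℂ) : ℂ :=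
  ∏ p ∈ N.primeFactors, (1 - χ p * (p : ℂ) ^ (-s))

section general

variable {M : ℕ} (χ : DirichletCharacter ℂ M)

lemma norm_chi_cpow_lt {p : ℕ} (hp : 1 < p) {s : ℂ} (hs : 0 < s.re) :
    ‖χ p * (p : ℂ) ^ (-s)‖ < 1 := by
  rw [norm_mul]
  have h1 := χ.norm_le_one p
  have h2 := norm_cpow_lt hp hs
  calc ‖χ p‖ * ‖(p : ℂ) ^ (-s)‖ ≤ 1 * ‖(p : ℂ) ^ (-s)‖ :=
        mul_le_mul_of_nonneg_right h1 (norm_nonneg _)
    _ < 1 := by rw [one_mul]; exact h2

lemma one_sub_chi_ne {p : ℕ} (hp : 1 < p) {s : ℂ} (hs : 0 < s.re) :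
    1 - χ p * (p : ℂ) ^ (-s) ≠ 0 := by
  intro h
  have h1 : χ p * (p : ℂ) ^ (-s) = 1 := by linear_combination -h
  have h2 := norm_chi_cpow_lt χ hp hs
  rw [h1, norm_one] at h2
  exact lt_irrefl _ h2

lemma chi_mul_pw (s : ℂ) (x : Nat.Primes × ℕ) :
    χ (x.1 : ℕ) ^ x.2 * pw s x = (χ (x.1 : ℕ) * ((x.1 : ℕ) : ℂ) ^ (-s)) ^ x.2 / x.2 := by
  rw [pw, mul_pow, mul_div_assoc]

lemma norm_chi_mul_pw_le (s : ℂ) (x : Nat.Primes × ℕ) :
    ‖χ (x.1 : ℕ) ^ x.2 * pw s x‖ ≤ pr s.re x := by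
  rw [norm_mul, norm_pow, norm_pw]
  have h1 : ‖χ (x.1 : ℕ)‖ ^ x.2 ≤ 1 := pow_le_one₀ (norm_nonneg _) (χ.norm_le_one _)
  calc ‖χ (x.1 : ℕ)‖ ^ x.2 * pr s.re x ≤ 1 * pr s.re x :=
        mul_le_mul_of_nonneg_right h1 (pr_nonneg _ _)
    _ = _ := one_mul _

lemma summable_chi_pw {s : ℂ} (hs : 1 < s.re) :
    Summable fun x : Nat.Primes × ℕ => χ (x.1 : ℕ) ^ x.2 * pw s x :=
  Summable.of_norm_bounded (g := fun x => pr s.re x) (summable_pr hs)
    (fun x => norm_chi_mul_pw_le χ s x)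

lemma summable_hN_chi_pw (N : ℕ) {s : ℂ} (hs : 1 < s.re) :
    Summable fun x : Nat.Primes × ℕ => (hN (ZN N) x : ℂ) * (χ (x.1 : ℕ) ^ x.2 * pw s x) := by
  apply Summable.of_norm_bounded (g := fun x => (hN (ZN N) x : ℝ) * pr s.re x)
    (summable_hN_ZN N hs)
  intro x
  rw [norm_mul, Complex.norm_natCast]
  exact mul_le_mul_of_nonneg_left (norm_chi_mul_pw_le χ s x) (by positivity)

/-- The Euler product of a Dirichlet character over the primes not dividing `N`. -/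
lemma exp_LX_ZN [NeZero M] {N : ℕ} (hN0 : N ≠ 0) {s : ℂ} (hs : 1 < s.re) :
    Complex.exp (∑' x : Nat.Primes × ℕ, (hN (ZN N) x : ℂ) * (χ (x.1 : ℕ) ^ x.2 * pw s x))
      = χ.LFunction s * PX χ N s := by
  have hL : ∀ p : Nat.Primes, HasSum (fun n : ℕ => χ (p : ℕ) ^ n * pw s (p, n))
      (-Complex.log (1 - χ (p : ℕ) * ((p : ℕ) : ℂ) ^ (-s))) := by
    intro p
    have h := Complex.hasSum_taylorSeries_neg_log
      (norm_chi_cpow_lt χ p.2.one_lt (s := s) (by linarith))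
    refine h.congr_fun ?_
    intro n
    exact chi_mul_pw χ s (p, n)
  -- the sum over everything
  have h1 : HasSum (fun p : Nat.Primes => -Complex.log (1 - χ (p : ℕ) * ((p : ℕ) : ℂ) ^ (-s)))
      (∑' x : Nat.Primes × ℕ, χ (x.1 : ℕ) ^ x.2 * pw s x) :=
    (summable_chi_pw χ hs).hasSum.prod_fiberwise hL
  have h2 : HasSum (fun p : Nat.Primes =>
      if (p : ℕ) ∣ N then 0 else -Complex.log (1 - χ (p : ℕ) * ((p : ℕ) : ℂ) ^ (-s)))
      (∑' x : Nat.Primes × ℕ, (hN (ZN N) x : ℂ) * (χ (x.1 : ℕ) ^ x.2 * pw s x)) := by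
    apply (summable_hN_chi_pw χ N hs).hasSum.prod_fiberwise
    intro p
    by_cases h : (p : ℕ) ∣ N
    · simp only [hN_ZN, h, if_true, Nat.cast_zero, zero_mul]
      exact hasSum_zero
    · simp only [hN_ZN, h, if_false, Nat.cast_one, one_mul]
      exact hL p
  have h3 : HasSum (fun p : Nat.Primes =>
      if (p : ℕ) ∣ N then -Complex.log (1 - χ (p : ℕ) * ((p : ℕ) : ℂ) ^ (-s)) else 0)
      (∑ p ∈ Finset.subtype Nat.Prime N.primeFactors,
        -Complex.log (1 - χ (p : ℕ) * ((p : ℕ) : ℂ) ^ (-s))) := by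
    have h4 : (∑ p ∈ Finset.subtype Nat.Prime N.primeFactors,
        -Complex.log (1 - χ (p : ℕ) * ((p : ℕ) : ℂ) ^ (-s)))
        = ∑ p ∈ Finset.subtype Nat.Prime N.primeFactors,
          if (p : ℕ) ∣ N then -Complex.log (1 - χ (p : ℕ) * ((p : ℕ) : ℂ) ^ (-s)) else 0 := by
      apply Finset.sum_congr rfl
      intro p hp
      rw [Finset.mem_subtype] at hp
      rw [if_pos (Nat.dvd_of_mem_primeFactors hp)]
    rw [h4]
    apply hasSum_sum_of_ne_finset_zero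
    intro p hp
    rw [if_neg]
    intro hdvd
    apply hp
    exact Finset.mem_subtype.2 (Nat.mem_primeFactors.2 ⟨p.2, hdvd, hN0⟩)
  have h5 : (∑' x : Nat.Primes × ℕ, (hN (ZN N) x : ℂ) * (χ (x.1 : ℕ) ^ x.2 * pw s x))
      = (∑' p : Nat.Primes, -Complex.log (1 - χ (p : ℕ) * ((p : ℕ) : ℂ) ^ (-s)))
      - ∑ p ∈ Finset.subtype Nat.Prime N.primeFactors,
        -Complex.log (1 - χ (p : ℕ) * ((p : ℕ) : ℂ) ^ (-s)) := by
    have h6 := h1.sub h3
    have h7 : (fun p : Nat.Primes => -Complex.log (1 - χ (p : ℕ) * ((p : ℕ) : ℂ) ^ (-s))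
        - if (p : ℕ) ∣ N then -Complex.log (1 - χ (p : ℕ) * ((p : ℕ) : ℂ) ^ (-s)) else 0)
        = fun p : Nat.Primes =>
          if (p : ℕ) ∣ N then 0 else -Complex.log (1 - χ (p : ℕ) * ((p : ℕ) : ℂ) ^ (-s)) := by
      ext p
      split_ifs <;> ring
    rw [h7] at h6
    rw [h1.tsum_eq]
    exact h2.unique h6
  rw [h5, Complex.exp_sub, DirichletCharacter.LSeries_eulerProduct_exp_log χ hs,
    ← DirichletCharacter.LFunction_eq_LSeries χ hs, div_eq_mul_inv, ← Complex.exp_neg,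
    ← Finset.sum_neg_distrib, Complex.exp_sum]
  congr 1
  rw [PX, ← Finset.prod_subtype_of_mem (fun p : ℕ => 1 - χ p * (p : ℂ) ^ (-s))
    (fun p hp => Nat.prime_of_mem_primeFactors hp)]
  apply Finset.prod_congr rfl
  intro p _
  rw [neg_neg, Complex.exp_log (one_sub_chi_ne χ p.2.one_lt (by linarith))]

lemma PX_differentiable {N : ℕ} : Differentiable ℂ (PX χ N) := by
  unfold PX
  apply Differentiable.fun_finsetProd
  intro p hp
  have hp0 : (p : ℂ) ≠ 0 := by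
    exact_mod_cast (Nat.prime_of_mem_primeFactors hp).ne_zero
  apply Differentiable.const_sub
  intro s
  exact ((differentiableAt_id.neg).const_cpow (Or.inl hp0)).const_mul _

lemma PX_one_ne {N : ℕ} : PX χ N 1 ≠ 0 := by
  unfold PX
  rw [Finset.prod_ne_zero_iff]
  intro p hp
  exact one_sub_chi_ne χ (Nat.prime_of_mem_primeFactors hp).one_lt (by simp)

end general

/-- The character `χ₋₃` modulo `3`. -/
noncomputable def chi3 : DirichletCharacter ℂ 3 :=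
  (quadraticChar (ZMod 3)).ringHomComp (Int.castRingHom ℂ)

lemma chi3_apply (a : ZMod 3) : chi3 a = (quadraticChar (ZMod 3) a : ℂ) := rfl

lemma chi3_ne_one : chi3 ≠ 1 := by
  intro h
  have h1 : chi3 (-1) = 1 := by
    rw [h]
    exact MulChar.one_apply (by decide)
  have h2 : quadraticChar (ZMod 3) (-1) = -1 := by decide
  rw [chi3_apply, h2] at h1
  norm_num at h1

lemma kx_eq {N : ℕ} (h6 : 6 ∣ N) {x : Nat.Primes × ℕ} (hx : x.2 ≠ 0) (h : ¬ (x.1 : ℕ) ∣ N) :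
    (kx x : ℂ) = 1 + chi3 ((x.1 : ℕ) : ZMod 3) ^ x.2 := by
  let _ : Fintype (GF x.1 x.2) := Fintype.ofFinite _
  let _ : DecidableEq (GF x.1 x.2) := Classical.decEq _
  have hcast : ∀ m : ℕ, ((m : ℕ) : GF x.1 x.2) = 0 ↔ (x.1 : ℕ) ∣ m :=
    fun m => CharP.cast_eq_zero_iff _ _ _
  have h2 : (2 : GF x.1 x.2) ≠ 0 := by
    intro h0
    apply h
    have := (hcast 2).1 (by exact_mod_cast h0)
    exact this.trans ((by norm_num : 2 ∣ 6).trans h6)
  have h3 : (3 : GF x.1 x.2) ≠ 0 := by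
    intro h0
    apply h
    have := (hcast 3).1 (by exact_mod_cast h0)
    exact this.trans ((by norm_num : 3 ∣ 6).trans h6)
  have hc : Fintype.card (GF x.1 x.2) = (x.1 : ℕ) ^ x.2 := by
    rw [← Nat.card_eq_fintype_card]; exact card_GF hx
  have h4 := char_neg_three h2 h3
  rw [hc] at h4
  push_cast at h4
  rw [map_pow] at h4
  have h5 : kx x = 1 + quadraticChar (ZMod 3) ((x.1 : ℕ) : ZMod 3) ^ x.2 := by
    rw [← h4]
    rfl
  rw [h5, chi3_apply]
  push_cast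
  rfl

lemma LZc_eq {N : ℕ} (h6 : 6 ∣ N) {s : ℂ} (hs : 1 < s.re) :
    LZc (ZN N) s = LZ (ZN N) s
      + ∑' x : Nat.Primes × ℕ, (hN (ZN N) x : ℂ) * (chi3 ((x.1 : ℕ) : ZMod 3) ^ x.2 * pw s x) := by
  have hsum : Summable fun x : Nat.Primes × ℕ => (hN (ZN N) x : ℂ) * pw s x := by
    rw [← summable_norm_iff]
    simp only [norm_mul, Complex.norm_natCast, norm_pw]
    exact summable_hN_ZN N hs
  rw [LZ, ← hsum.tsum_add (summable_hN_chi_pw chi3 N hs), LZc]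
  apply tsum_congr
  intro x
  by_cases hx : x.2 = 0
  · simp [pw, hx]
  · by_cases h : (x.1 : ℕ) ∣ N
    · simp [hN_ZN, h]
    · rw [kx_eq h6 hx h]
      ring

/-- The exponential of `LZc` is `ζ(s) L(s, χ₋₃)` up to the Euler factors at `N`. -/
lemma exp_LZc_ZN {N : ℕ} (hN0 : N ≠ 0) (h6 : 6 ∣ N) {s : ℂ} (hs : 1 < s.re) :
    Complex.exp (LZc (ZN N) s)
      = (riemannZeta s * PN N s) * (chi3.LFunction s * PX chi3 N s) := by
  rw [LZc_eq h6 hs, Complex.exp_add, exp_LZ_ZN hN0 hs, exp_LX_ZN chi3 hN0 hs]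

end Pool.Agent.Hhelper78.CM
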