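import Mathlib
import Pool.Agent.Hhelper78.CM.ZN
import Pool.Agent.Hhelper78.CM.Base
import Pool.Agent.Hhelper85.UCmain

/-!
# The continuation of the Euler product of `y² = x³ + t` with marked points over `ℤ[1/N]`
-/

set_option linter.unusedSectionVars false

namespace Pool.Agent.Hhelper78.CM

open Pool.Agent.TateBSD Pool.Agent.Hhelper85 Filter Topology

/-- The continuation of `ζ(s) L(s, χ₋₃)` without the Euler factors at `N`, as a product. -/
noncomputable def ZL (N : ℕ) (s : ℂ) : ℂ :=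
  (riemannZeta s * PN N s) * (chi3.LFunction s * PX chi3 N s)

/-- The continuation of the Euler product. -/
noncomputable def PhiC (N r : ℕ) (s : ℂ) : ℂ :=
  Complex.exp (HHc (ZN N) r s) * ((ZL N (s - (r + 1))) ^ r)⁻¹

lemma analyticAt_LX (N : ℕ) (s : ℂ) :
    AnalyticAt ℂ (fun s => chi3.LFunction s * PX chi3 N s) s :=
  ((DirichletCharacter.differentiable_LFunction chi3_ne_one).analyticAt s).mul
    ((PX_differentiable chi3).analyticAt s)

lemma meromorphicAt_ZL (N : ℕ) (s : ℂ) : MeromorphicAt (ZL N) s := by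
  have h1 : MeromorphicAt (fun s => riemannZeta s * PN N s) s :=
    (meromorphicAt_zeta s).mul (PN_differentiable.analyticAt s).meromorphicAt
  exact h1.mul (analyticAt_LX N s).meromorphicAt

lemma order_ZL (N : ℕ) : meromorphicOrderAt (ZL N) 1 = (-1 : ℤ) := by
  have h1 : meromorphicOrderAt (fun s : ℂ => (PN N s * (chi3.LFunction s * PX chi3 N s))
      * riemannZeta s) 1 = meromorphicOrderAt riemannZeta 1 :=
    meromorphicOrderAt_mul_of_ne_zero
      ((PN_differentiable.analyticAt 1).mul (analyticAt_LX N 1))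
      (mul_ne_zero PN_one_ne (mul_ne_zero
        (DirichletCharacter.LFunction_apply_one_ne_zero chi3_ne_one) (PX_one_ne chi3)))
  rw [← order_zeta, ← h1]
  congr 1
  ext s
  rw [ZL]
  ring

section

variable {N : ℕ} (hN : N ≠ 0) (h6 : 6 ∣ N) (r : ℕ)
include hN h6

lemma analyticAt_HHc {s : ℂ} (hs : (r : ℝ) + 1 < s.re) : AnalyticAt ℂ (HHc (ZN N) r) s := by
  have h1 := differentiableOn_HHc (unit6 hN h6) (d := 1)
    (fun σ hσ => summable_hN_ZN N hσ) r
  apply h1.analyticAt
  apply (isOpen_lt continuous_const Complex.continuous_re).mem_nhds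
  show (1 : ℝ) + r < s.re
  linarith

omit hN h6 in
lemma meromorphicAt_ZL_shift (s : ℂ) :
    MeromorphicAt (fun s : ℂ => ZL N (s - (r + 1))) s := by
  have hg : AnalyticAt ℂ (fun s : ℂ => s - ((r : ℂ) + 1)) s := analyticAt_id.sub analyticAt_const
  exact (meromorphicAt_ZL N _).comp_analyticAt hg

lemma meromorphicAt_PhiC {s : ℂ} (hs : (r : ℝ) + 1 < s.re) : MeromorphicAt (PhiC N r) s := by
  have h1 := (analyticAt_HHc hN h6 r hs).cexp.meromorphicAt
  have h2 := ((meromorphicAt_ZL_shift (N := N) r s).pow r).inv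
  exact h1.mul h2

lemma order_PhiC : meromorphicOrderAt (PhiC N r) (r + 2) = r := by
  have hs : (r : ℝ) + 1 < ((r : ℂ) + 2).re := by
    simp only [Complex.add_re, Complex.natCast_re, Complex.re_ofNat]
    linarith
  have h1 := (analyticAt_HHc hN h6 r hs).cexp
  have h2 := meromorphicAt_ZL_shift (N := N) r ((r : ℂ) + 2)
  have e1 : ((r : ℂ) + 2) - ((r : ℂ) + 1) = 1 := by ring
  have h5 : meromorphicOrderAt (fun s : ℂ => ZL N (s - (r + 1))) ((r : ℂ) + 2) = (-1 : ℤ) := by
    have := meromorphicOrderAt_comp_sub_const_eq_meromorphicOrderAt (f := ZL N)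
      (c := (r : ℂ) + 1) (x := (r : ℂ) + 2)
    rw [e1] at this
    rw [← order_ZL N, ← this]
    rfl
  have h7 : meromorphicOrderAt (PhiC N r) (r + 2)
      = meromorphicOrderAt (((fun s : ℂ => ZL N (s - (r + 1))) ^ r)⁻¹) ((r : ℂ) + 2) :=
    meromorphicOrderAt_mul_of_ne_zero h1 (Complex.exp_ne_zero _)
  rw [h7, meromorphicOrderAt_inv, meromorphicOrderAt_pow h2, h5]
  norm_cast
  simp

lemma hasProd_PhiC {s : ℂ} (hs : (r : ℝ) + 5 / 2 < s.re) :
    HasProd (fun m : MaximalSpectrum (sextic (Localization.Away (N : ℤ)) r).R =>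
      localFactor (sextic (Localization.Away (N : ℤ)) r).curve m s) (PhiC N r s) := by
  have h1 := hasProd_sextic (R₀ := ZN N) (unit6 hN h6) (d := 1)
    (fun σ hσ => summable_hN_ZN N hσ) zero_le_one r (s := s) (by linarith)
  have h2 : 1 < (s - ((r : ℂ) + 1)).re := by
    simp only [Complex.sub_re, Complex.add_re, Complex.natCast_re, Complex.one_re]
    linarith
  have h3 : PhiC N r s = Complex.exp (HHc (ZN N) r s - r * LZc (ZN N) (s - (r + 1 : ℕ))) := by
    rw [Complex.exp_sub, Complex.exp_nat_mul]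
    have e : ((r + 1 : ℕ) : ℂ) = (r : ℂ) + 1 := by push_cast; ring
    rw [e, exp_LZc_ZN hN h6 h2, PhiC, ZL, div_eq_mul_inv]
  rw [h3]
  exact h1

end

/-- `-3` is not a square in the fraction field of `ℤ[1/N]`. -/
lemma neg_three_ZN {N : ℕ} (hN : N ≠ 0) (z : FractionRing (ZN N)) : z ^ 2 ≠ -3 := by
  have hdom : IsDomain (ZN N) :=
    IsLocalization.isDomain_localization (powers_le_nonZeroDivisors_of_noZeroDivisors
      (by exact_mod_cast hN : (N : ℤ) ≠ 0))
  intro hz
  -- the map `ℤ[1/N] → ℚ`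
  have hu : IsUnit ((Int.castRingHom ℚ) (N : ℤ)) := by
    rw [isUnit_iff_ne_zero]
    simpa using hN
  let f : ZN N →+* ℚ := IsLocalization.Away.lift (N : ℤ) hu
  have hf : Function.Injective f := by
    rw [injective_iff_map_eq_zero]
    intro x hx
    obtain ⟨n, a, h⟩ := IsLocalization.Away.surj (N : ℤ) x
    have h1 : f (algebraMap ℤ (ZN N) a) = (a : ℚ) := by
      rw [← RingHom.comp_apply]
      simp
    have h2 := congrArg f h
    rw [map_mul, hx, zero_mul, h1] at h2
    have h3 : a = 0 := by exact_mod_cast h2.symm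
    rw [h3, map_zero] at h
    have h4 : IsUnit (algebraMap ℤ (ZN N) ((N : ℤ))  ^ n) :=
      (IsLocalization.Away.algebraMap_isUnit (N : ℤ)).pow n
    exact (h4.mul_left_eq_zero).1 h
  let g : FractionRing (ZN N) →+* ℚ := IsFractionRing.lift hf
  have h := congrArg g hz
  rw [map_pow, map_neg, map_ofNat] at h
  nlinarith [sq_nonneg (g z)]

theorem sextic_ZN {N : ℕ} (hN : N ≠ 0) (h6 : 6 ∣ N) (r : ℕ) :
    RankGood (sextic (ZN N) r) r := by
  have hdom : IsDomain (ZN N) :=
    IsLocalization.isDomain_localization (powers_le_nonZeroDivisors_of_noZeroDivisors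
      (by exact_mod_cast hN : (N : ℤ) ≠ 0))
  exact rankGood_sextic (ZN N) (six_units (unit6 hN h6)).1.ne_zero
    (six_units (unit6 hN h6)).2.ne_zero (neg_three_ZN hN) r

end Pool.Agent.Hhelper78.CM
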